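import Pool.Agent.H9Act.Zero
import Pool.Agent.H9Nil.Word
import Pool.Agent.H9Nil.HirschThin

set_option autoImplicit false

/-!
# Nilpotent subgroups acting properly on a thin complex
-/

namespace Pool.Agent.H9Act

open Pool.Agent.AutDim3 Pool.Agent.H9DimN Pool.Agent.H36Top Pool.Agent.H9Nil

attribute [local instance] ThinAction.act

theorem ThinAction.Proper.mono {G : Type} [Group G] {G₁ : Subgroup G} {n : ℕ}
    {T : ThinAction n G₁} {K L : Subgroup G} (h : T.Proper L) (hKL : K ≤ L) : T.Proper K :=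
  fun i hi g hg x hx => h i hi g (hKL hg) x hx

/-- A torsion-free group that acts properly acts freely. -/
theorem free_of_proper {N G : Type} [Group N] [Group G] {G₁ : Subgroup G} {n : ℕ}
    {T : ThinAction n G₁} (φ : N →* G₁) (hφ : Function.Injective φ)
    (hp : T.Proper (G₁.subtype.comp φ).range)
    (hN : ∀ (g : N) (m : ℕ), m ≠ 0 → g ^ m = 1 → g = 1) :
    ∀ i ≤ n + 1, ∀ (g : N) (x : T.E i), φ g • x = x → g = 1 := by
  intro i hi g x hx
  have h1 := hp i hi (φ g) ⟨g, rfl⟩ x hx
  obtain ⟨m, hm, hgm⟩ := isOfFinOrder_iff_pow_eq_one.mp h1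
  refine hN g m hm.ne' (hφ (Subtype.ext ?_))
  rw [map_pow, map_one, Subgroup.coe_pow, hgm]
  rfl

/-- A finitely generated torsion-free nilpotent group of Hirsch length `k + 1` that acts properly is
virtually commutative. -/
theorem comm_of_act {N G : Type} [Group N] [Group G] {k : ℕ} (hG : IsAutomatic G)
    (G₁ : Subgroup G) (hi : G₁.index ≠ 0) (T : ThinAction (k + 1) G₁) (φ : N →* G)
    (hφ : Function.Injective φ) (hp : T.Proper φ.range) (h : HasSeries N (k + 1)) :
    ∃ A : Subgroup N, A.index ≠ 0 ∧ ∀ a ∈ A, ∀ b ∈ A, a * b = b * a := by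
  have hfi : G₁.FiniteIndex := ⟨hi⟩
  have hAN : (G₁.comap φ).index ≠ 0 := by
    rw [Subgroup.index_comap]
    exact (inferInstance : (G₁.subgroupOf φ.range).FiniteIndex).index_ne_zero
  refine ⟨G₁.comap φ, hAN, ?_⟩
  set A := G₁.comap φ with hA
  have hAs : HasSeries A (k + 1) := by
    refine series_of_finiteIndex h A.subtype A.subtype_injective ?_
    rw [Subgroup.range_subtype]
    exact hAN
  by_contra hcon
  push Not at hcon
  obtain ⟨a, ha, b, hb, hab⟩ := hcon
  have h1 : Group.IsNilpotent A := series_nilpotent hAs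
  have h2 : Group.FG A := series_fg hAs
  have h3 := rank_lt hAs ⟨⟨a, ha⟩, ⟨b, hb⟩, fun h => hab (by simpa using congrArg Subtype.val h)⟩
  obtain ⟨C⟩ := exists_comb G hG
  obtain ⟨z, ν, hz, cyc, hin, hc, hv⟩ := exists_top hAs
  let φ₁ : A →* G₁ := (φ.comp A.subtype).codRestrict G₁ (fun a => a.2)
  have hφ₁ : Function.Injective φ₁ := by
    intro x y hxy
    have h5 : φ x = φ y := congrArg Subtype.val hxy
    exact Subtype.ext (hφ h5)
  have h6 := free_of_proper (T := T) φ₁ hφ₁ (hp.mono (by
    rintro _ ⟨x, rfl⟩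
    exact ⟨x, rfl⟩)) (fun g m hm hg => series_torsionfree hAs g m hm hg)
  have h4 := act_zero C G₁.subtype G₁.subtype_injective
    (by rw [Subgroup.range_subtype]; exact hfi) T φ₁ hφ₁ h6 z hz cyc
    (nil_vanish C _ h3 z hz cyc) ν hin hc
  rw [hv] at h4
  exact one_ne_zero h4

theorem hz_torsionfree : ∀ (m : ℕ) (g : HZ m) (t : ℕ), t ≠ 0 → g ^ t = 1 → g = 1
  | 0 => by
    show ∀ (g : Heis) (t : ℕ), t ≠ 0 → g ^ t = 1 → g = 1
    intro g t ht hg
    have hx : ∀ k : ℕ, (g ^ k).x = k * g.x := by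
      intro k
      induction k with
      | zero => simp
      | succ k ih => rw [pow_succ, Heis.mul_x, ih]; push_cast; ring
    have hy : ∀ k : ℕ, (g ^ k).y = k * g.y := by
      intro k
      induction k with
      | zero => simp
      | succ k ih => rw [pow_succ, Heis.mul_y, ih]; push_cast; ring
    have h0 : (t : ℤ) ≠ 0 := by exact_mod_cast ht
    have hx0 : g.x = 0 := by
      have := hx t
      rw [hg, Heis.one_x] at this
      exact (mul_eq_zero.mp this.symm).resolve_left h0
    have hy0 : g.y = 0 := by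
      have := hy t
      rw [hg, Heis.one_y] at this
      exact (mul_eq_zero.mp this.symm).resolve_left h0
    have hz : ∀ k : ℕ, (g ^ k).z = k * g.z := by
      intro k
      induction k with
      | zero => simp
      | succ k ih =>
        rw [pow_succ, Heis.mul_z, ih]
        simp only [hx0, hy0, hx, hy]
        push_cast
        ring
    have hz0 : g.z = 0 := by
      have := hz t
      rw [hg, Heis.one_z] at this
      exact (mul_eq_zero.mp this.symm).resolve_left h0
    ext
    · rw [hx0, Heis.one_x]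
    · rw [hy0, Heis.one_y]
    · rw [hz0, Heis.one_z]
  | m + 1 => by
    show ∀ (g : HZ m × Multiplicative ℤ) (t : ℕ), t ≠ 0 → g ^ t = 1 → g = 1
    rintro ⟨x, a⟩ t ht hg
    have h1 : x ^ t = 1 := congrArg Prod.fst hg
    have h2 : a ^ t = 1 := congrArg Prod.snd hg
    have h3 := hz_torsionfree m x t ht h1
    have h4 : a = 1 := by
      apply Multiplicative.toAdd.injective
      have := congrArg Multiplicative.toAdd h2
      rw [toAdd_pow, toAdd_one, nsmul_eq_mul] at this
      rw [toAdd_one]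
      exact (mul_eq_zero.mp this).resolve_left (by exact_mod_cast ht)
    rw [h3, h4]
    rfl

/-- The group `Heis × ℤ^m` does not act properly. -/
theorem no_hz_act (m : ℕ) {G : Type} [Group G] (hG : IsAutomatic G) (G₁ : Subgroup G)
    (hi : G₁.index ≠ 0) (T : ThinAction (m + 3) G₁) (Φ : HZ m →* G) (hΦ : Function.Injective Φ)
    (hp : T.Proper Φ.range) : False := by
  have hfi : G₁.FiniteIndex := ⟨hi⟩
  set M := G₁.normalCore with hM
  have hMi : M.index ≠ 0 := (Subgroup.finiteIndex_normalCore (H := G₁)).index_ne_zero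
  have hpow : ∀ g : G, g ^ M.index ∈ M := fun g => Subgroup.pow_index_mem M g
  obtain ⟨h1, h2⟩ := hz_dil M.index hMi m
  have hmem : ∀ n, (Φ.comp ((hzFund m).dil M.index)) n ∈ G₁ := fun n =>
    G₁.normalCore_le (h2 G M hpow Φ n)
  set φ₁ : HZ m →* G₁ := (Φ.comp ((hzFund m).dil M.index)).codRestrict G₁ hmem with hφ₁
  have hinj : Function.Injective φ₁ := by
    intro g h hgh
    have h3 : Φ ((hzFund m).dil M.index g) = Φ ((hzFund m).dil M.index h) :=
      congrArg Subtype.val hgh
    exact h1 (hΦ h3)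
  have h6 := free_of_proper (T := T) φ₁ hinj (hp.mono (by
    rintro _ ⟨x, rfl⟩
    exact ⟨(hzFund m).dil M.index x, rfl⟩)) (hz_torsionfree m)
  obtain ⟨C⟩ := exists_comb G hG
  have h4 := act_zero (k := m + 2) C G₁.subtype G₁.subtype_injective
    (by rw [Subgroup.range_subtype]; exact hfi) T φ₁ hinj h6 (hzFund m).z (hzFund m).mem
    (hzFund m).cyc (vanish (hzFund m) C _) (hzFund m).nu (hzFund m).nu_inv (hzFund m).nu_closed
  rw [(hzFund m).nu_z] at h4
  exact one_ne_zero h4

/-- A finitely generated torsion-free nilpotent subgroup of Hirsch length `k + 1` that acts properly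
meets the commutator subgroups of nilpotent subgroups trivially. -/
theorem inter_act {G : Type} [Group G] {k : ℕ} (hG : IsAutomatic G) (G₁ : Subgroup G)
    (hi : G₁.index ≠ 0) (T : ThinAction (k + 1) G₁)
    (K H : Subgroup G) (hp : T.Proper K) (hK : HasSeries K (k + 1)) (hH : Group.IsNilpotent H)
    (z : G) (hzK : z ∈ K) (hzH : z ∈ ⁅H, H⁆) : z = 1 := by
  by_contra hz
  obtain ⟨C⟩ := exists_comb G hG
  have hfi : G₁.FiniteIndex := ⟨hi⟩
  -- pass to a commutative subgroup of finite index inside `G₁`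
  obtain ⟨A, hAi, hAc⟩ := comm_of_act hG G₁ hi T K.subtype K.subtype_injective
    (by rw [Subgroup.range_subtype]; exact hp) hK
  have hG₁i : (G₁.subgroupOf K).index ≠ 0 :=
    (inferInstance : (G₁.subgroupOf K).FiniteIndex).index_ne_zero
  set B : Subgroup K := A ⊓ G₁.subgroupOf K with hB
  have hBi : B.index ≠ 0 := Subgroup.index_inf_ne_zero hAi hG₁i
  have hBs : HasSeries B (k + 1) := by
    refine series_of_finiteIndex hK B.subtype B.subtype_injective ?_
    rw [Subgroup.range_subtype]
    exact hBi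
  obtain ⟨m, hm, -, hmB⟩ := Subgroup.exists_pow_mem_of_index_ne_zero hBi (⟨z, hzK⟩ : K)
  have hzm : (⟨z, hzK⟩ : K) ^ m ≠ 1 := by
    intro h
    exact hz (congrArg Subtype.val (series_torsionfree hK _ m hm.ne' h))
  obtain ⟨θ, y, ν, hθ, hy, cyc, hvan, hin, hcl, hv⟩ := exists_dead C hBs
    (fun a b => Subtype.ext (hAc a.1 a.2.1 b.1 b.2.1))
    (K.subtype.comp B.subtype) ⟨⟨z, hzK⟩ ^ m, hmB⟩ (fun h => hzm (congrArg Subtype.val h)) H hH
    (by
      show (((⟨z, hzK⟩ : K) ^ m : K) : G) ∈ ⁅H, H⁆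
      rw [Subgroup.coe_pow]
      exact Subgroup.pow_mem _ hzH m)
  let φ₁ : Zn (k + 1) →* G₁ := ((K.subtype.comp B.subtype).comp θ).codRestrict G₁
    (fun a => (θ a).2.2)
  have hφ₁ : Function.Injective φ₁ := by
    intro x y hxy
    have h5 : (((θ x : B) : K) : G) = (((θ y : B) : K) : G) :=
      congrArg (fun g : G₁ => (g : G)) hxy
    exact hθ (Subtype.ext (Subtype.ext h5))
  have h6 := free_of_proper (T := T) φ₁ hφ₁ (hp.mono (by
    rintro _ ⟨x, rfl⟩
    exact (θ x).1.2)) (fun g m hm hg => series_torsionfree (hasSeries_lattice (k + 1)) g m hm hg)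
  have h4 := act_zero C G₁.subtype G₁.subtype_injective
    (by rw [Subgroup.range_subtype]; exact hfi) T φ₁ hφ₁ h6 y hy cyc hvan ν hin hcl
  rw [hv] at h4
  exact one_ne_zero h4

end Pool.Agent.H9Act
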