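import Mathlib

set_option autoImplicit false

/-!
# Actions on thin complexes
-/

namespace Pool.Agent.H9Act

/-- A thin action in dimension `n` of a group `Γ`: sets `E 0, ..., E (n + 1)` (the cells of dimension
`0, ..., n + 1`) with actions of `Γ`, and equivariant linear boundary maps `d i` from the real
chains on `E (i + 1)` to the real chains on `E i`, for `i ≤ n`, such that

* the homology in the degrees `0, ..., n` is that of a point (`nonempty`, `exact_zero`, `exact`);
* every `n`-cell has coefficient `0` in the boundary of all `(n + 1)`-cells except at most two, and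
  the coefficient is `0`, `1` or `-1` always (`thin`, `unit`).

The actions need not be free, and the stabilisers of cells are arbitrary. (The sets `E i` with
`i ≥ n + 2` and the maps `d i` with `i ≥ n + 1` play no role.) -/
structure ThinAction (n : ℕ) (Γ : Type) [Group Γ] where
  /-- the cells -/
  E : ℕ → Type
  /-- the action on the cells -/
  [act : ∀ i, MulAction Γ (E i)]
  /-- the boundary maps -/
  d : ∀ i : ℕ, (E (i + 1) →₀ ℝ) →ₗ[ℝ] (E i →₀ ℝ)
  equivariant : ∀ i ≤ n, ∀ (g : Γ) (c : E (i + 1) →₀ ℝ),
    d i (c.mapDomain fun x => g • x) = (d i c).mapDomain fun x => g • x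
  nonempty : Nonempty (E 0)
  exact_zero : ∀ c : E 0 →₀ ℝ, (c.sum fun _ r => r) = 0 ↔ ∃ b, d 0 b = c
  exact : ∀ i < n, ∀ c : E (i + 1) →₀ ℝ, d i c = 0 ↔ ∃ b, d (i + 1) b = c
  thin : ∀ e : E n, {f : E (n + 1) | d n (Finsupp.single f 1) e ≠ 0}.encard ≤ 2
  unit : ∀ (e : E n) (f : E (n + 1)), d n (Finsupp.single f 1) e = 0 ∨
    d n (Finsupp.single f 1) e = 1 ∨ d n (Finsupp.single f 1) e = -1

attribute [local instance] ThinAction.act

/-- A subgroup `K` of `G` acts properly on the cells of a thin action of a subgroup `G₁` of `G`: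
the elements of `K ∩ G₁` that fix a cell of dimension at most `n + 1` have finite order. -/
def ThinAction.Proper {G : Type} [Group G] {G₁ : Subgroup G} {n : ℕ} (T : ThinAction n G₁)
    (K : Subgroup G) : Prop :=
  ∀ i ≤ n + 1, ∀ g : G₁, (g : G) ∈ K → ∀ x : T.E i, g • x = x → IsOfFinOrder (g : G)

end Pool.Agent.H9Act
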