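import Pool.Agent.H9Thin.LiftSub
import Pool.Agent.H9Thin.Orbit

set_option autoImplicit false

/-!
# Orbits of a subgroup that acts freely
-/

namespace Pool.Agent.H9Act

open Pool.Agent.AutDim3
open Pool.Agent.H9Thin (perm perm_single stepVs orb prj prj_single)

/-- One step of the lifting back, equivariant under a group that acts freely. -/
theorem stepVn {N Γ G : Type} [Group N] [Group Γ] [Group G] (ι : Γ →* G) (φ : N →* Γ)
    {V E : Type} [AddCommGroup V] [Module ℝ V] [MulAction Γ E]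
    (hfree : ∀ (g : N) (x : E), φ g • x = x → g = 1)
    (ρ : Representation ℝ Γ V) (D : (E →₀ ℝ) →ₗ[ℝ] V)
    (hD : ∀ g x, D (perm Γ E g x) = ρ g (D x)) (n : ℕ)
    (B : V →ₗ[ℝ] Ch G) (hB : ∀ (g : N) x, B (ρ (φ g) x) = push (ι (φ g) * ·) (B x))
    (hdeg : ∀ x, B x ∈ Deg (G := G) n) (hcyc : ∀ c, bd (B (D c)) = 0) :
    ∃ B' : (E →₀ ℝ) →ₗ[ℝ] Ch G,
      (∀ (g : N) x, B' (perm Γ E (φ g) x) = push (ι (φ g) * ·) (B' x)) ∧
      (∀ x, B' x ∈ Deg (G := G) (n + 1)) ∧ ∀ c, bd (B' c) = B (D c) := by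
  letI : MulAction N E := MulAction.compHom E φ
  exact stepVs (ι.comp φ) (E := E) hfree (ρ.comp φ) D (fun g x => hD (φ g) x) n B hB hdeg hcyc

/-- The coefficient of the boundary of a cell of the quotient. -/
theorem prj_coefn {N G : Type} [Group N] [Group G] (φ : N →* G)
    {E E' : Type} [MulAction G E] [MulAction G E']
    (hfree : ∀ (g : N) (x : E), φ g • x = x → g = 1)
    (hfree' : ∀ (g : N) (x : E'), φ g • x = x → g = 1)
    (M : (E' →₀ ℝ) →ₗ[ℝ] (E →₀ ℝ))
    (hM : ∀ (g : G) (c : E' →₀ ℝ), M (perm G E' g c) = perm G E g (M c))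
    (e : E) (A : Finset E') (hA : ∀ f, M (Finsupp.single f 1) e ≠ 0 → f ∈ A) (f₀ : E') :
    prj φ E (M (Finsupp.single f₀ 1)) (Quotient.mk (orb φ E) e) =
      ∑ f ∈ A, M (Finsupp.single f 1) e *
        Finsupp.single (Quotient.mk (orb φ E') f₀) (1 : ℝ) (Quotient.mk (orb φ E') f) := by
  classical
  set c := M (Finsupp.single f₀ 1) with hc
  -- coefficients are equivariant
  have hcoef : ∀ (g : G), c (g • e) = M (Finsupp.single (g⁻¹ • f₀) 1) e := by
    intro g
    have h1 := hM g⁻¹ (Finsupp.single f₀ 1)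
    rw [perm_single] at h1
    rw [h1, ← hc]
    have h2 : g⁻¹ • (g • e) = e := by simp
    conv_rhs => rw [← h2]
    show c (g • e) = (c.mapDomain (g⁻¹ • ·)) (g⁻¹ • (g • e))
    rw [Finsupp.mapDomain_apply (MulAction.injective g⁻¹)]
  -- left side
  have hL : prj φ E c (Quotient.mk (orb φ E) e) =
      ∑ x ∈ c.support.filter (fun x => Quotient.mk (orb φ E) x = Quotient.mk (orb φ E) e), c x := by
    rw [Finset.sum_filter]
    show (c.mapDomain (Quotient.mk (orb φ E))) _ = _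
    rw [Finsupp.mapDomain, Finsupp.sum_apply, Finsupp.sum]
    refine Finset.sum_congr rfl fun x _ => ?_
    rw [Finsupp.single_apply]
  have hR : ∑ f ∈ A, M (Finsupp.single f 1) e *
        Finsupp.single (Quotient.mk (orb φ E') f₀) (1 : ℝ) (Quotient.mk (orb φ E') f) =
      ∑ f ∈ A.filter (fun f => M (Finsupp.single f 1) e ≠ 0 ∧
        Quotient.mk (orb φ E') f₀ = Quotient.mk (orb φ E') f), M (Finsupp.single f 1) e := by
    rw [Finset.sum_filter]
    refine Finset.sum_congr rfl fun f _ => ?_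
    rw [Finsupp.single_apply]
    by_cases h1 : M (Finsupp.single f 1) e = 0
    · rw [h1]; simp
    · by_cases h2 : Quotient.mk (orb φ E') f₀ = Quotient.mk (orb φ E') f
      · rw [if_pos h2, if_pos ⟨h1, h2⟩, mul_one]
      · rw [if_neg h2, if_neg (fun h => h2 h.2), mul_zero]
  rw [hL, hR]
  -- the bijection
  have hx : ∀ x ∈ c.support.filter (fun x => Quotient.mk (orb φ E) x = Quotient.mk (orb φ E) e),
      ∃ n : N, x = φ n • e := by
    intro x hx
    obtain ⟨n, hn⟩ := Quotient.exact (Finset.mem_filter.mp hx).2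
    exact ⟨n⁻¹, by rw [hn]; simp⟩
  choose! ν hν using hx
  refine Finset.sum_bij (fun x _ => (φ (ν x))⁻¹ • f₀) ?_ ?_ ?_ ?_
  · intro x hx
    have h1 := hcoef (φ (ν x))
    rw [← hν x hx] at h1
    have h2 : M (Finsupp.single ((φ (ν x))⁻¹ • f₀) 1) e ≠ 0 := by
      rw [← h1]
      exact Finsupp.mem_support_iff.mp (Finset.mem_filter.mp hx).1
    exact Finset.mem_filter.mpr ⟨hA _ h2, h2,
      Quotient.sound ⟨(ν x)⁻¹, by rw [map_inv]⟩⟩
  · intro x hx y hy hxy
    have h1 : φ (ν y * (ν x)⁻¹) • f₀ = f₀ := by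
      rw [map_mul, map_inv, mul_smul, hxy]
      simp
    have h2 := hfree' _ _ h1
    have h3 : ν y = ν x := by
      rw [← mul_inv_eq_one]; exact h2
    rw [hν x hx, hν y hy, h3]
  · intro f hf
    obtain ⟨h1, h2, h3⟩ := Finset.mem_filter.mp hf
    obtain ⟨n, hn⟩ := Quotient.exact h3
    have h4 : c (φ n⁻¹ • e) = M (Finsupp.single f 1) e := by
      rw [hcoef, hn, map_inv, inv_inv]
    have h5 : φ n⁻¹ • e ∈ c.support.filter
        (fun x => Quotient.mk (orb φ E) x = Quotient.mk (orb φ E) e) := by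
      refine Finset.mem_filter.mpr ⟨Finsupp.mem_support_iff.mpr (by rw [h4]; exact h2), ?_⟩
      exact (Quotient.sound ⟨n⁻¹, rfl⟩ : Quotient.mk (orb φ E) e =
        Quotient.mk (orb φ E) (φ n⁻¹ • e)).symm
    refine ⟨φ n⁻¹ • e, h5, ?_⟩
    have h6 := hν _ h5
    have h7 : φ ((ν (φ n⁻¹ • e))⁻¹ * n⁻¹) • e = e := by
      rw [map_mul, map_inv φ (ν (φ n⁻¹ • e)), mul_smul]
      have h := congrArg (fun z => (φ (ν (φ n⁻¹ • e)))⁻¹ • z) h6
      simp only [inv_smul_smul] at h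
      exact h
    have h8 := hfree _ _ h7
    have h9 : ν (φ n⁻¹ • e) = n⁻¹ := by
      have := mul_eq_one_iff_inv_eq.mp h8
      rw [inv_inv] at this
      exact this
    show (φ (ν (φ n⁻¹ • e)))⁻¹ • f₀ = f
    rw [h9, map_inv, inv_inv, hn]
  · intro x hx
    have h1 := hcoef (φ (ν x))
    rw [← hν x hx] at h1
    exact h1

end Pool.Agent.H9Act
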