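import Pool.Agent.H9DimN.Thin
import Pool.Agent.H9Act.Defs
import Pool.Agent.H9Act.Orbit

set_option autoImplicit false

/-!
# Comparison maps for a thin action
-/

namespace Pool.Agent.H9Act

open Pool.Agent.AutDim3
open Pool.Agent.H9DimN (deg_ext bounded_of_sub)
open Pool.Agent.H9Thin (perm perm_single stepUs stepHs orb prj prj_single prj_perm descend
  prj_surj l1 l1_perm l1_prj_le l1_nonneg eq_zero_of_l1 separate exists_of_functional)

attribute [local instance] ThinAction.act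

variable {N Γ G : Type} [Group N] [Group Γ] [Group G]

/-- The comparison maps in degree `i`. -/
structure Maps {n : ℕ} (K : ThinAction n Γ) (ι : Γ →* G) (φ : N →* Γ) (i : ℕ) where
  U : Ch G →ₗ[ℝ] (K.E i →₀ ℝ)
  B : (K.E i →₀ ℝ) →ₗ[ℝ] Ch G
  B' : (K.E (i + 1) →₀ ℝ) →ₗ[ℝ] Ch G
  H' : Ch G →ₗ[ℝ] Ch G
  H : Ch G →ₗ[ℝ] Ch G
  Ue : ∀ (g : Γ) (l : List G), U (sg (l.map (ι g * ·))) = perm Γ (K.E i) g (U (sg l))
  Uc : ∀ l : List G, l.length = i + 2 → ∃ y, K.d i y = U (bd (sg l))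
  Be : ∀ (g : N) x, B (perm Γ (K.E i) (φ g) x) = push (ι (φ g) * ·) (B x)
  Bd : ∀ x, B x ∈ Deg (G := G) (i + 1)
  Be' : ∀ (g : N) x, B' (perm Γ (K.E (i + 1)) (φ g) x) = push (ι (φ g) * ·) (B' x)
  Bd' : ∀ x, B' x ∈ Deg (G := G) (i + 2)
  Bb' : ∀ c, bd (B' c) = B (K.d i c)
  He : ∀ (g : N) (l : List G), H (sg (l.map (ι (φ g) * ·))) = push (ι (φ g) * ·) (H (sg l))
  He' : ∀ (g : N) (l : List G), H' (sg (l.map (ι (φ g) * ·))) =
    push (ι (φ g) * ·) (H' (sg l))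
  Hd' : ∀ l : List G, l.length = i + 1 → H' (sg l) ∈ Deg (G := G) (i + 2)
  Hk : ∀ l : List G, l.length = i + 1 → B (U (sg l)) - sg l = bd (H' (sg l)) + H (bd (sg l))
  Hv : ∀ v ∈ Deg (G := G) (i + 1), bd v = 0 → B (U v) - v = bd (H' v)

theorem comp_equi {n : ℕ} {K : ThinAction n Γ} {ι : Γ →* G} {φ : N →* Γ} {i : ℕ}
    (U : Ch G →ₗ[ℝ] (K.E i →₀ ℝ)) (B : (K.E i →₀ ℝ) →ₗ[ℝ] Ch G)
    (hU : ∀ (g : Γ) (l : List G), U (sg (l.map (ι g * ·))) = perm Γ (K.E i) g (U (sg l)))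
    (hB : ∀ (g : N) x, B (perm Γ (K.E i) (φ g) x) = push (ι (φ g) * ·) (B x)) (g : N)
    (l : List G) :
    (B ∘ₗ U) (sg (l.map (ι (φ g) * ·))) = push (ι (φ g) * ·) ((B ∘ₗ U) (sg l)) := by
  rw [LinearMap.comp_apply, LinearMap.comp_apply, hU, hB]

/-- Degree zero. -/
theorem maps_zero {n : ℕ} (K : ThinAction (n + 1) Γ) (ι : Γ →* G) (hι : Function.Injective ι)
    (φ : N →* Γ) (hfree : ∀ i ≤ n + 2, ∀ (g : N) (x : K.E i), φ g • x = x → g = 1) :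
    Nonempty (Maps K ι φ 0) := by
  classical
  -- the augmentation
  set D₀ : (K.E 0 →₀ ℝ) →ₗ[ℝ] ℝ := Finsupp.linearCombination ℝ (fun _ => (1 : ℝ)) with hD₀
  have hD₀s : ∀ c : K.E 0 →₀ ℝ, D₀ c = c.sum fun _ r => r := by
    intro c
    simp [hD₀, Finsupp.linearCombination_apply]
  set ρ₀ : Representation ℝ Γ ℝ := Representation.trivial ℝ Γ ℝ with hρ₀
  have hρ₀a : ∀ (g : Γ) (x : ℝ), ρ₀ g x = x := fun g x => rfl
  have hD₀e : ∀ g x, D₀ (perm Γ (K.E 0) g x) = ρ₀ g (D₀ x) := by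
    intro g x
    rw [hρ₀a]
    have : D₀ ∘ₗ (perm Γ (K.E 0) g) = D₀ := by
      apply Finsupp.lhom_ext
      intro y r
      rw [LinearMap.comp_apply, perm_single]
      simp [hD₀, Finsupp.linearCombination_single]
    exact LinearMap.congr_fun this x
  have hde : ∀ i ≤ n + 1, ∀ g x, K.d i (perm Γ (K.E (i + 1)) g x) =
      perm Γ (K.E i) g (K.d i x) := fun i hi g x => K.equivariant i hi g x
  -- lifting
  set U₀ : Ch G →ₗ[ℝ] ℝ := Finsupp.linearCombination ℝ (fun _ => (1 : ℝ)) with hU₀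
  have hU₀s : ∀ l : List G, U₀ (sg l) = 1 := by
    intro l
    simp [hU₀, sg, Finsupp.linearCombination_single]
  obtain ⟨U₁, hU₁e, hU₁⟩ := stepUs ι hι ρ₀ (perm Γ (K.E 0)) D₀ hD₀e U₀
    (fun g l => by rw [hU₀s, hU₀s, hρ₀a]) 0 (by
      intro l hl
      obtain ⟨x⟩ := K.nonempty
      refine ⟨Finsupp.single x 1, ?_⟩
      match l, hl with
      | [y], _ =>
        rw [bd_cons, bd_nil, map_zero, sub_zero, hU₀s]
        simp [hD₀, Finsupp.linearCombination_single])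
  have hU₁w : ∀ w ∈ Deg (G := G) 1, D₀ (U₁ w) = U₀ (bd w) := fun w hw =>
    deg_ext (D₀ ∘ₗ U₁) (U₀ ∘ₗ bd) 1 hU₁ hw
  -- back
  set B₀ : ℝ →ₗ[ℝ] Ch G := LinearMap.toSpanSingleton ℝ (Ch G) (sg []) with hB₀
  have hB₀a : ∀ r : ℝ, B₀ r = r • sg [] := fun r => rfl
  have hbB₀ : ∀ r, bd (B₀ r) = 0 := by
    intro r
    rw [hB₀a, map_smul, bd_nil, smul_zero]
  obtain ⟨B₁, hB₁e, hB₁d, hB₁⟩ := stepVn ι φ (hfree 0 (by omega)) ρ₀ D₀ hD₀e 0 B₀
    (fun g x => by rw [hρ₀a, hB₀a, map_smul, push_sg, List.map_nil])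
    (fun x => by rw [hB₀a]; exact Submodule.smul_mem _ _ (sg_mem_deg rfl))
    (fun c => hbB₀ _)
  have hdd0 : ∀ c, D₀ (K.d 0 c) = 0 := by
    intro c
    rw [hD₀s]
    exact (K.exact_zero _).mpr ⟨c, rfl⟩
  obtain ⟨B₂, hB₂e, hB₂d, hB₂⟩ := stepVn ι φ (hfree 1 (by omega)) (perm Γ (K.E 0)) (K.d 0)
    (hde 0 (by omega)) 1 B₁ hB₁e hB₁d (fun c => by rw [hB₁, hdd0, map_zero])
  obtain ⟨H₁, hH₁e, hH₁d, hH₁k, hH₁⟩ := stepHs (ι.comp φ) (B₀ ∘ₗ U₀) (B₁ ∘ₗ U₁) 0 0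
    (comp_equi U₁ B₁ hU₁e hB₁e) (fun l _ => hB₁d _) (fun g l => by simp)
    (fun l _ => by simp)
    (fun l hl => by
      rw [LinearMap.comp_apply, LinearMap.comp_apply, hB₁, hU₁w _ (sg_mem_deg hl)])
    (fun v hv _ => by
      have := deg_ext (B₀ ∘ₗ U₀) LinearMap.id 0 (fun l hl => by
        match l, hl with
        | [], _ =>
          rw [LinearMap.comp_apply, hU₀s, hB₀a, one_smul]
          rfl) hv
      rw [this]
      simp)
  exact ⟨{
    U := U₁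
    B := B₁
    B' := B₂
    H' := H₁
    H := 0
    Ue := hU₁e
    Uc := fun l hl => by
      apply (K.exact_zero _).mp
      rw [← hD₀s, hU₁w _ (bd_sg_mem_deg hl), bd_bd, map_zero]
    Be := hB₁e
    Bd := hB₁d
    Be' := hB₂e
    Bd' := hB₂d
    Bb' := hB₂
    He := fun g l => by simp
    He' := hH₁e
    Hd' := hH₁d
    Hk := hH₁k
    Hv := hH₁ }⟩

/-- The next degree. -/
theorem maps_succ {n : ℕ} (K : ThinAction n Γ) (ι : Γ →* G) (hι : Function.Injective ι)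
    (φ : N →* Γ) (hfree : ∀ i ≤ n + 1, ∀ (g : N) (x : K.E i), φ g • x = x → g = 1) (i : ℕ)
    (hi : i < n) (M : Maps K ι φ i) : Nonempty (Maps K ι φ (i + 1)) := by
  classical
  have hde : ∀ i ≤ n, ∀ g x, K.d i (perm Γ (K.E (i + 1)) g x) =
      perm Γ (K.E i) g (K.d i x) := fun i hi g x => K.equivariant i hi g x
  obtain ⟨U, hUe, hU⟩ := stepUs ι hι (perm Γ (K.E i)) (perm Γ (K.E (i + 1))) (K.d i)
    (hde i hi.le) M.U M.Ue (i + 1) M.Uc
  have hUw : ∀ w ∈ Deg (G := G) (i + 2), K.d i (U w) = M.U (bd w) := fun w hw =>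
    deg_ext (K.d i ∘ₗ U) (M.U ∘ₗ bd) (i + 2) hU hw
  have hdd : ∀ c, K.d i (K.d (i + 1) c) = 0 := fun c => (K.exact i hi _).mpr ⟨c, rfl⟩
  obtain ⟨B, hBe, hBd, hB⟩ := stepVn ι φ (hfree (i + 2) (by omega)) (perm Γ (K.E (i + 1)))
    (K.d (i + 1)) (hde (i + 1) (by omega)) (i + 2) M.B' M.Be' M.Bd' (fun c => by
      rw [M.Bb', hdd, map_zero])
  obtain ⟨H, hHe, hHd, hHk, hHv⟩ := stepHs (ι.comp φ) (M.B ∘ₗ M.U) (M.B' ∘ₗ U) M.H' (i + 1)
    (comp_equi U M.B' hUe M.Be') (fun l _ => M.Bd' _) M.He' M.Hd'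
    (fun l hl => by
      rw [LinearMap.comp_apply, LinearMap.comp_apply, M.Bb', hUw _ (sg_mem_deg hl)])
    M.Hv
  exact ⟨{
    U := U
    B := M.B'
    B' := B
    H' := H
    H := M.H'
    Ue := hUe
    Uc := fun l hl => by
      apply (K.exact i hi _).mp
      rw [hUw _ (bd_sg_mem_deg hl), bd_bd, map_zero]
    Be := M.Be'
    Bd := M.Bd'
    Be' := hBe
    Bd' := hBd
    Bb' := hB
    He := M.He'
    He' := hHe
    Hd' := hHd
    Hk := hHk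
    Hv := hHv }⟩

theorem exists_maps {n : ℕ} (K : ThinAction (n + 1) Γ) (ι : Γ →* G)
    (hι : Function.Injective ι) (φ : N →* Γ)
    (hfree : ∀ i ≤ n + 2, ∀ (g : N) (x : K.E i), φ g • x = x → g = 1) :
    ∀ i ≤ n + 1, Nonempty (Maps K ι φ i) := by
  intro i
  induction i with
  | zero => exact fun _ => maps_zero K ι hι φ hfree
  | succ i ih =>
    intro hi
    obtain ⟨M⟩ := ih (by omega)
    exact maps_succ K ι hι φ hfree i (by omega) M

/-- The boundary of the quotient in terms of at most two cofaces. -/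
theorem exists_cofaces {n : ℕ} (K : ThinAction n Γ) (hne : Nonempty (K.E (n + 1)))
    (e : K.E n) :
    ∃ (f₁ f₂ : K.E (n + 1)) (a₁ a₂ : ℝ), (a₁ = 0 ∨ |a₁| = 1) ∧ (a₂ = 0 ∨ |a₂| = 1) ∧
      ∃ A : Finset (K.E (n + 1)), (∀ f, K.d n (Finsupp.single f 1) e ≠ 0 → f ∈ A) ∧
        ∀ v : K.E (n + 1) → ℝ, ∑ f ∈ A, K.d n (Finsupp.single f 1) e * v f =
          a₁ * v f₁ + a₂ * v f₂ := by
  classical
  set S : Set (K.E (n + 1)) := {f | K.d n (Finsupp.single f 1) e ≠ 0} with hS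
  have hle : S.encard ≤ 2 := K.thin e
  have hfin : S.Finite := Set.finite_of_encard_le_coe (k := 2) (by exact_mod_cast hle)
  have habs : ∀ f ∈ S, |K.d n (Finsupp.single f 1) e| = 1 := by
    intro f hf
    rcases K.unit e f with h | h | h
    · exact absurd h hf
    · rw [h, abs_one]
    · rw [h, abs_neg, abs_one]
  have hcard : hfin.toFinset.card ≤ 2 := by
    have h1 : S.encard = hfin.toFinset.card := hfin.encard_eq_coe_toFinset_card
    rw [h1] at hle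
    exact_mod_cast hle
  obtain ⟨f₀⟩ := hne
  have hmem : ∀ f, K.d n (Finsupp.single f 1) e ≠ 0 → f ∈ hfin.toFinset :=
    fun f hf => hfin.mem_toFinset.mpr hf
  interval_cases hc : hfin.toFinset.card
  · refine ⟨f₀, f₀, 0, 0, Or.inl rfl, Or.inl rfl, hfin.toFinset, hmem, fun v => ?_⟩
    rw [Finset.card_eq_zero.mp hc]
    simp
  · obtain ⟨f, hf⟩ := Finset.card_eq_one.mp hc
    have hfS : f ∈ S := hfin.mem_toFinset.mp (by rw [hf]; exact Finset.mem_singleton_self f)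
    refine ⟨f, f₀, K.d n (Finsupp.single f 1) e, 0, Or.inr (habs f hfS), Or.inl rfl,
      hfin.toFinset, hmem, fun v => ?_⟩
    rw [hf, Finset.sum_singleton, zero_mul, add_zero]
  · obtain ⟨f, f', hff, hf⟩ := Finset.card_eq_two.mp hc
    have hfS : f ∈ S := hfin.mem_toFinset.mp (by rw [hf]; simp)
    have hfS' : f' ∈ S := hfin.mem_toFinset.mp (by rw [hf]; simp)
    refine ⟨f, f', K.d n (Finsupp.single f 1) e, K.d n (Finsupp.single f' 1) e,
      Or.inr (habs f hfS), Or.inr (habs f' hfS'), hfin.toFinset, hmem, fun v => ?_⟩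
    rw [hf, Finset.sum_pair hff]

end Pool.Agent.H9Act
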