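import Pool.Agent.H9Nil.Main
import Pool.Agent.H9Act.Maps

set_option autoImplicit false

/-!
# Groups with thin actions
-/

namespace Pool.Agent.H9Act

open Pool.Agent.AutDim3 Pool.Agent.H9Nil
open Pool.Agent.H9DimN (deg_ext bounded_of_sub)
open Pool.Agent.H9Thin (perm perm_single stepUs stepHs orb prj prj_single prj_perm descend
  prj_surj l1 l1_perm l1_prj_le l1_nonneg eq_zero_of_l1 separate exists_of_functional)

attribute [local instance] ThinAction.act

/-- In a combed group with a subgroup of finite index that has a thin action in dimension `k + 1`,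
invariant cocycles vanish on the cycles of a subgroup acting freely that are killed by all cocycles
bounded on small simplices. -/
theorem act_zero {N Γ G : Type} [Group N] [Group Γ] [Group G] {k : ℕ} (C : Comb G)
    (ι : Γ →* G) (hι : Function.Injective ι) (hfi : ι.range.FiniteIndex)
    (K : ThinAction (k + 1) Γ) (φ : N →* Γ) (hφ : Function.Injective φ)
    (hfree : ∀ i ≤ k + 2, ∀ (g : N) (x : K.E i), φ g • x = x → g = 1) (y : Ch N)
    (hy : y ∈ Deg (G := N) (k + 2)) (cyc : IsCyc y) (hv : Vanishes k C (ι.comp φ) y)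
    (nu : Ch N →ₗ[ℝ] ℝ) (nu_inv : InvUnder (MonoidHom.id N) nu)
    (nu_closed : Closed (k + 2) nu) : nu y = 0 := by
  classical
  obtain ⟨M⟩ := exists_maps K ι hι φ hfree (k + 1) le_rfl
  have hde : ∀ g x, K.d (k + 1) (perm Γ (K.E (k + 1 + 1)) g x) =
      perm Γ (K.E (k + 1)) g (K.d (k + 1) x) :=
    fun g x => K.equivariant (k + 1) le_rfl g x
  have hf3 : ∀ (g : N) (x : K.E (k + 1)), φ g • x = x → g = 1 := hfree (k + 1) (by omega)
  have hf4 : ∀ (g : N) (x : K.E (k + 1 + 1)), φ g • x = x → g = 1 := hfree (k + 2) le_rfl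
  -- the homomorphism to the big group
  set θ : N →* G := ι.comp φ with hθ
  have hθinj : Function.Injective θ := by
    rw [hθ, MonoidHom.coe_comp]
    exact hι.comp hφ
  -- the quotient boundary
  obtain ⟨D, hD⟩ := descend φ (E := K.E (k + 1 + 1)) (prj φ (K.E (k + 1)) ∘ₗ K.d (k + 1)) (by
    intro n c
    rw [LinearMap.comp_apply, LinearMap.comp_apply, hde, prj_perm])
  have hD' : ∀ c, D (prj φ (K.E (k + 1 + 1)) c) = prj φ (K.E (k + 1)) (K.d (k + 1) c) :=
    fun c => by rw [hD]; rfl
  set z : Ch G := push θ y with hz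
  set w := prj φ (K.E (k + 1)) (M.U z) with hw
  -- every bounded functional kills `w`
  have hkill : ∀ ψ : (Quotient (orb φ (K.E (k + 1))) →₀ ℝ) →ₗ[ℝ] ℝ, (∀ x, |ψ x| ≤ l1 x) →
      (∀ b, ψ (D b) = 0) → ψ w = 0 := by
    intro ψ h1 h2
    have := hv (ψ ∘ₗ prj φ (K.E (k + 1)) ∘ₗ M.U) ?_ ?_ ?_
    · exact this
    · intro n l
      simp only [LinearMap.comp_apply]
      have e1 : M.U (sg (l.map (θ n * ·))) = perm Γ (K.E (k + 1)) (φ n) (M.U (sg l)) :=
        M.Ue (φ n) l
      rw [e1, prj_perm]
    · intro l hl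
      simp only [LinearMap.comp_apply]
      obtain ⟨y, hy⟩ := M.Uc l hl
      rw [← hy, ← hD']
      exact h2 _
    · intro R
      obtain ⟨M', hM'⟩ := bounded_of_sub C ι hfi (k + 1) (fun l => l1 (M.U (sg l)))
        (fun g l _ => by rw [M.Ue, l1_perm]) R
      refine ⟨M', fun l hl hs => ?_⟩
      simp only [LinearMap.comp_apply]
      exact (h1 _).trans ((l1_prj_le φ _).trans (hM' l hl hs))
  -- hence `w` is a boundary
  have hwb : ∃ b, D b = w := by
    rcases isEmpty_or_nonempty (K.E (k + 1 + 1)) with hemp | hne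
    · -- no cells of the top dimension
      have hD0 : ∀ b, D b = 0 := by
        intro b
        obtain ⟨c, rfl⟩ := prj_surj φ b
        rw [Subsingleton.elim c 0, map_zero, map_zero]
      refine ⟨0, ?_⟩
      rw [hD0]
      by_contra hne
      have hpos : 0 < l1 w :=
        lt_of_le_of_ne (l1_nonneg w) (fun h => hne (eq_zero_of_l1 h.symm).symm)
      obtain ⟨ψ, h1, -, h3⟩ := separate (⊥ : Submodule ℝ _) w (l1 w) hpos (by
        intro s hs
        rw [(Submodule.mem_bot ℝ).mp hs, sub_zero])
      exact h3 (hkill ψ h1 fun b => by rw [hD0, map_zero])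
    · have hex := fun e : K.E (k + 1) => exists_cofaces K hne e
      choose f₁ f₂ a₁ a₂ ha₁ ha₂ A hA hsum using hex
      refine exists_of_functional D (fun q => Quotient.mk (orb φ (K.E (k + 1 + 1))) (f₁ q.out))
        (fun q => Quotient.mk (orb φ (K.E (k + 1 + 1))) (f₂ q.out)) (fun q => a₁ q.out)
        (fun q => a₂ q.out) (fun q => ha₁ _) (fun q => ha₂ _) ?_ w hkill
      intro b q
      have key : ∀ (f₀ : K.E (k + 1 + 1)),
          D (Finsupp.single (Quotient.mk (orb φ (K.E (k + 1 + 1))) f₀) 1) q =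
          a₁ q.out * Finsupp.single (Quotient.mk (orb φ (K.E (k + 1 + 1))) f₀) (1 : ℝ)
            (Quotient.mk (orb φ (K.E (k + 1 + 1))) (f₁ q.out)) +
          a₂ q.out * Finsupp.single (Quotient.mk (orb φ (K.E (k + 1 + 1))) f₀) (1 : ℝ)
            (Quotient.mk (orb φ (K.E (k + 1 + 1))) (f₂ q.out)) := by
        intro f₀
        rw [← prj_single φ f₀ 1, hD']
        have e1 := prj_coefn φ hf3 hf4 (K.d (k + 1)) hde q.out (A q.out) (hA q.out) f₀
        rw [Quotient.out_eq q] at e1
        rw [e1, prj_single]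
        exact hsum q.out fun f =>
          Finsupp.single (Quotient.mk (orb φ (K.E (k + 1 + 1))) f₀) (1 : ℝ)
            (Quotient.mk (orb φ (K.E (k + 1 + 1))) f)
      have hlin : (Finsupp.lapply q ∘ₗ D :
            (Quotient (orb φ (K.E (k + 1 + 1))) →₀ ℝ) →ₗ[ℝ] ℝ) =
          a₁ q.out • Finsupp.lapply (Quotient.mk (orb φ (K.E (k + 1 + 1))) (f₁ q.out)) +
          a₂ q.out • Finsupp.lapply (Quotient.mk (orb φ (K.E (k + 1 + 1))) (f₂ q.out)) := by
        apply Finsupp.lhom_ext'
        intro p
        apply LinearMap.ext_ring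
        induction p using Quotient.inductionOn with
        | h f₀ =>
          simp only [LinearMap.comp_apply, Finsupp.lsingle_apply, LinearMap.add_apply,
            LinearMap.smul_apply, smul_eq_mul, Finsupp.lapply_apply]
          exact key f₀
      have := LinearMap.congr_fun hlin b
      simpa using this
  -- the volume functional
  obtain ⟨r, hr1, hr2⟩ := exists_retraction θ hθinj
  set V : Ch G →ₗ[ℝ] ℝ := nu ∘ₗ push r with hV
  have hVi : InvUnder θ V := by
    intro n l
    simp only [hV, LinearMap.comp_apply, push_sg, List.map_map]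
    have := nu_inv n (l.map r)
    rw [List.map_map] at this
    rw [← this]
    congr 2
    apply List.map_congr_left
    intro x _
    simp [hr1]
  have hVc : ∀ x ∈ Deg (G := G) (k + 3), V (bd x) = 0 := by
    intro x hx
    rw [hV, LinearMap.comp_apply, push_bd]
    exact nu_closed.apply (push_mem_deg _ hx)
  obtain ⟨Λ, hΛ⟩ := descend φ (E := K.E (k + 1)) (V ∘ₗ M.B) (by
    intro n c
    rw [LinearMap.comp_apply, LinearMap.comp_apply, M.Be]
    exact hVi.apply n (M.B c))
  -- it kills boundaries
  have hΛD : ∀ b, Λ (D b) = 0 := by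
    intro b
    obtain ⟨c, rfl⟩ := prj_surj φ b
    rw [hD', hΛ, LinearMap.comp_apply, ← M.Bb']
    exact hVc _ (M.Bd' c)
  have hzd : z ∈ Deg (G := G) (k + 2) := push_mem_deg _ hy
  have h1 : Λ w = nu y := by
    rw [hw, hΛ, LinearMap.comp_apply]
    have e1 : (M.B ∘ₗ M.U - (LinearMap.id : Ch G →ₗ[ℝ] Ch G)) z =
        (bd ∘ₗ M.H' + M.H ∘ₗ bd) z := by
      refine deg_ext _ _ (k + 2) (fun l hl => ?_) hzd
      simp only [LinearMap.sub_apply, LinearMap.id_apply, LinearMap.add_apply,
        LinearMap.comp_apply]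
      exact M.Hk l hl
    simp only [LinearMap.sub_apply, LinearMap.id_apply, LinearMap.add_apply,
      LinearMap.comp_apply] at e1
    have e2 : V (M.B (M.U z)) - V z = V (bd (M.H' z)) + V (M.H (bd z)) := by
      rw [← map_sub, e1, map_add]
    have e3 : M.H' z ∈ Deg (G := G) (k + 3) := map_mem_of_sg M.H' M.Hd' hzd
    rw [hVc _ e3, zero_add] at e2
    have e4 : InvUnder (MonoidHom.id N) (V ∘ₗ M.H ∘ₗ push θ) := by
      intro n l
      simp only [LinearMap.comp_apply, push_sg, MonoidHom.id_apply, List.map_map]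
      have e5 : (l.map θ).map (ι (φ n) * ·) = l.map (θ ∘ fun x => n * x) := by
        rw [List.map_map]
        apply List.map_congr_left
        intro x _
        simp [hθ]
      rw [← e5, M.He]
      exact hVi.apply n _
    have e6 := cyc _ e4
    simp only [LinearMap.comp_apply] at e6
    rw [push_bd] at e6
    rw [e6, sub_eq_zero] at e2
    rw [e2, hz, hV, LinearMap.comp_apply, push_push]
    have h6 : r ∘ θ = fun x => x := by ext x; simp [hr2]
    rw [h6, push_id]
  obtain ⟨b, hb⟩ := hwb
  rw [← hb, hΛD] at h1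
  exact h1.symm


end Pool.Agent.H9Act
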